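import Pool.Agent.Q145.PQ.Stm
import Pool.Agent.Q210.LQ.TRANSQ

/-!
# Project PQ (helper145), job TRANSP: from the classes to all admissible constants

Adapted from `Pool/Agent/Q210/LQ/TRANSQ.lean`.
-/

set_option autoImplicit false
set_option linter.unusedSectionVars false

namespace Pool.Agent.Q176.PQ

open Finset Filter Pool.Agent.Q145.SZ Pool.Agent.Q145.LQ Pool.Agent.Q145.PQ
open Pool.Agent.Q58.SZ (card_cls_le le_card_cls)
open Pool.Agent.Q210.LQ (card_SbQ mem_SbQ ratio_prod)

open Classical in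
/-- a sum over the admissible tuples -/
theorem sum_ATP (hM : S_MBP) {d z Y X K : ℕ} {H : Fin K → ℕ} {q : Fin K → Polynomial ℤ} (hK : d * K + 2 ≤ z)
    (hs : Sys d z Y X H q) (E : (Fin K → ℕ) → Prop) :
    (((ATP H q).filter fun s => E s).card : ℝ) =
      ∑ b ∈ AdP (PW z) q, (((SbQ H b).filter fun s => E s).card : ℝ) := by
  have hq : ∀ i, 1 ≤ (q i).natDegree ∧ (q i).natDegree ≤ d ∧ (q i).leadingCoeff.natAbs ≤ z :=
    fun i => ⟨(hs.deg i).1, (hs.deg i).2, hs.lead i⟩
  rw [← Nat.cast_sum, ← Finset.card_biUnion]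
  · congr 2
    ext s
    simp only [Finset.mem_filter, Finset.mem_biUnion, ATP, Fintype.mem_piFinset,
      AdP, Finset.mem_univ, true_and, mem_SbQ]
    constructor
    · rintro ⟨⟨h1, h2⟩, h3⟩
      exact ⟨_, ((hM d z Y K q s).2 hK hq).1 h2, ⟨h1, rfl⟩, h3⟩
    · rintro ⟨b, hb, ⟨h1, rfl⟩, h3⟩
      exact ⟨⟨h1, ((hM d z Y K q s).2 hK hq).2 hb⟩, h3⟩
  · intro b _ b' _ hbb'
    rw [Function.onFun, Finset.disjoint_left]
    intro s hs hs'
    rw [Finset.mem_filter, mem_SbQ] at hs hs'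
    exact hbb' (hs.1.2.symm.trans hs'.1.2)

/-- job TRANSP -/
theorem t_TRANSP : S_TRANSP := by
  classical
  intro hM d z Yn X K H q E η hK hs hX h
  have hW : (0 : ℝ) < PW z := by exact_mod_cast Nat.pos_of_ne_zero (NeZero.ne (PW z))
  set Y : ℝ := (X : ℝ) / PW z with hYdef
  have hY : 8 * ((K : ℝ) + 1) ≤ Y := by
    rw [hYdef, le_div_iff₀ hW]
    exact_mod_cast hX
  have hK0 : (0 : ℝ) ≤ K := Nat.cast_nonneg K
  set y : Fin K → ℝ := fun i => (H i : ℝ) / PW z with hy
  have hyY : ∀ i, Y ≤ y i := by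
    intro i
    rw [hYdef, hy]
    apply div_le_div_of_nonneg_right _ hW.le
    exact_mod_cast (hs.scale i).1
  have hratio := ratio_prod hY hyY
  set B : ℝ := ∏ i, (y i + 1) with hB
  set A : ℝ := ∏ i, (y i - 1) with hA
  have hA0 : 0 < A := Finset.prod_pos fun i _ => by linarith [hyY i]
  have hB0 : 0 < B := Finset.prod_pos fun i _ => by linarith [hyY i]
  have hSle : ∀ b : Fin K → ZMod (PW z), ((SbQ H b).card : ℝ) ≤ B := by
    intro b
    rw [card_SbQ]
    exact Finset.prod_le_prod (fun _ _ => Nat.cast_nonneg _) fun i _ => card_cls_le (H i) (b i)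
  have hSge : ∀ b : Fin K → ZMod (PW z), A ≤ ((SbQ H b).card : ℝ) := by
    intro b
    rw [card_SbQ]
    exact Finset.prod_le_prod (fun i _ => by linarith [hyY i]) fun i _ => le_card_cls (H i) (b i)
  have h0 : 0 ≤ η * (AdP (PW z) q).card :=
    le_trans (Finset.sum_nonneg fun b _ => by positivity) h
  have h1 : (((ATP H q).filter fun s => E s).card : ℝ) ≤ B * (η * (AdP (PW z) q).card) := by
    rw [sum_ATP hM hK hs E]
    refine le_trans ?_ (mul_le_mul_of_nonneg_left h hB0.le)
    rw [Finset.mul_sum]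
    refine Finset.sum_le_sum fun b _ => ?_
    have hSpos : (0 : ℝ) < (SbQ H b).card := lt_of_lt_of_le hA0 (hSge b)
    rw [mul_div_assoc', le_div_iff₀ hSpos, mul_comm]
    exact mul_le_mul_of_nonneg_right (hSle b) (Nat.cast_nonneg _)
  have e1 := sum_ATP hM hK hs (fun _ => True)
  simp only [Finset.filter_true] at e1
  have h2 : A * (AdP (PW z) q).card ≤ ((ATP H q).card : ℝ) := by
    rw [e1]
    calc A * (AdP (PW z) q).card = ∑ _b ∈ AdP (PW z) q, A := by
          rw [Finset.sum_const, nsmul_eq_mul, mul_comm]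
      _ ≤ ∑ b ∈ AdP (PW z) q, ((SbQ H b).card : ℝ) :=
        Finset.sum_le_sum fun b _ => hSge b
  by_cases hη : 0 ≤ η
  · calc (((ATP H q).filter fun s => E s).card : ℝ)
        ≤ B * (η * (AdP (PW z) q).card) := h1
      _ ≤ 2 * A * (η * (AdP (PW z) q).card) := mul_le_mul_of_nonneg_right hratio h0
      _ = 2 * η * (A * (AdP (PW z) q).card) := by ring
      _ ≤ 2 * η * (ATP H q).card := mul_le_mul_of_nonneg_left h2 (by linarith)
  · push Not at hη
    have hAd : ((AdP (PW z) q).card : ℝ) = 0 := by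
      have h3 : (0 : ℝ) ≤ (AdP (PW z) q).card := Nat.cast_nonneg _
      nlinarith
    have hAT : ((ATP H q).card : ℝ) = 0 := by
      rw [e1]
      have : AdP (PW z) q = ∅ := by
        rw [← Finset.card_eq_zero]
        exact_mod_cast hAd
      rw [this, Finset.sum_empty]
    rw [hAT, mul_zero]
    have h4 : (((ATP H q).filter fun s => E s).card : ℝ) ≤ (ATP H q).card := by
      exact_mod_cast Finset.card_filter_le _ _
    linarith

end Pool.Agent.Q176.PQ
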