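import Pool.Agent.Q283.PQ.Stm

set_option autoImplicit false
set_option linter.unusedVariables false

/-!
# Project PQ (helper283), job FMG: the first moment
-/

namespace Pool.Agent.Q176.PQ

open Filter Topology Finset
open Pool.Agent.Q283.FT (U2 om)
open Pool.Agent.Q283.PQ
open scoped Classical

variable {f k : ℕ}

/-- the class of `(δ, x)` -/
noncomputable def Ph (φ : Fin k → Fin f → ZMod 2) : ((Fin f → U2) × (Fin k → U2)) →+ ((Fin f → U2) × (Fin f → U2)) where
  toFun z := (z.1, fun l => ∑ p, φ p l • z.2 p)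
  map_zero' := by
    refine Prod.ext rfl ?_
    funext l
    show ∑ p, φ p l • (0 : U2) = 0
    simp only [smul_zero, Finset.sum_const_zero]
  map_add' z z' := by
    refine Prod.ext rfl ?_
    funext l
    show ∑ p, φ p l • (z.2 p + z'.2 p) = (∑ p, φ p l • z.2 p) + ∑ p, φ p l • z'.2 p
    simp only [smul_add, Finset.sum_add_distrib]

lemma Ph_surj (φ : Fin k → Fin f → ZMod 2) (h : ∀ χ, ∃ p, φ p = χ) : Function.Surjective (Ph φ) := by
  rintro ⟨δ, w⟩
  choose P hP using fun l : Fin f => h (Pi.single l 1)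
  refine ⟨(δ, fun p => ∑ l, if p = P l then w l else 0), ?_⟩
  refine Prod.ext rfl ?_
  funext l
  show ∑ p, φ p l • (∑ l', if p = P l' then w l' else 0) = w l
  simp only [Finset.smul_sum]
  rw [Finset.sum_comm]
  have h1 : ∀ l', ∑ p, φ p l • (if p = P l' then w l' else 0) = (Pi.single l' (1 : ZMod 2) : Fin f → ZMod 2) l • w l' := by
    intro l'
    rw [Finset.sum_eq_single (P l')]
    · rw [if_pos rfl, hP]
    · intro p _ hp
      rw [if_neg hp, smul_zero]
    · intro hh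
      exact absurd (mem_univ _) hh
  simp only [h1]
  rw [Finset.sum_eq_single l]
  · rw [Pi.single_eq_same, one_smul]
  · intro l' _ hl'
    rw [Pi.single_eq_of_ne (Ne.symm hl'), zero_smul]
  · intro hh
    exact absurd (mem_univ _) hh

lemma card_U2 : Fintype.card U2 = 4 := by
  rw [Fintype.card_prod, ZMod.card]

lemma card_pre (φ : Fin k → Fin f → ZMod 2) (h : ∀ χ, ∃ p, φ p = χ)
    (𝓛 : Submodule (ZMod 2) ((Fin f → U2) × (Fin f → U2))) :
    (univ.filter fun z : (Fin f → U2) × (Fin k → U2) => Ph φ z ∈ 𝓛).card * 4 ^ f = Nat.card 𝓛 * 4 ^ k := by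
  have hs := Ph_surj φ h
  obtain ⟨c, hc⟩ : ∃ c, c = (univ.filter fun z : (Fin f → U2) × (Fin k → U2) => Ph φ z = 0).card := ⟨_, rfl⟩
  have hfib : ∀ y, (univ.filter fun z : (Fin f → U2) × (Fin k → U2) => Ph φ z = y).card = c := by
    intro y
    rw [hc]
    exact AddMonoidHom.card_fiber_eq_of_mem_range (Ph φ) (hs y) (hs 0)
  have h1 : (univ.filter fun z : (Fin f → U2) × (Fin k → U2) => Ph φ z ∈ 𝓛).card = Nat.card 𝓛 * c := by
    rw [Finset.card_eq_sum_card_fiberwise (f := Ph φ) (t := univ.filter (· ∈ 𝓛))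
      (fun z hz => by
        rw [Finset.mem_coe, Finset.mem_filter] at hz ⊢
        exact ⟨mem_univ _, hz.2⟩)]
    have h2 : ∀ y ∈ univ.filter (· ∈ 𝓛), ((univ.filter fun z : (Fin f → U2) × (Fin k → U2) => Ph φ z ∈ 𝓛).filter
        (fun z => Ph φ z = y)).card = c := by
      intro y hy
      rw [← hfib y]
      congr 1
      ext z
      rw [Finset.mem_filter, Finset.mem_filter, Finset.mem_filter]
      constructor
      · rintro ⟨⟨_, _⟩, h3⟩
        exact ⟨mem_univ _, h3⟩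
      · rintro ⟨_, h3⟩
        exact ⟨⟨mem_univ _, by rw [h3]; exact (Finset.mem_filter.1 hy).2⟩, h3⟩
    rw [Finset.sum_congr rfl h2, Finset.sum_const, smul_eq_mul]
    congr 1
    rw [Nat.card_eq_fintype_card, Fintype.card_subtype]
  have h2 : Fintype.card ((Fin f → U2) × (Fin k → U2)) = Fintype.card ((Fin f → U2) × (Fin f → U2)) * c := by
    rw [← Finset.card_univ, Finset.card_eq_sum_card_fiberwise (f := Ph φ) (t := univ) (fun z _ => by simp),
      Finset.sum_congr rfl (fun y _ => hfib y), Finset.sum_const, smul_eq_mul, Finset.card_univ]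
  rw [Fintype.card_prod, Fintype.card_prod, Fintype.card_fun, Fintype.card_fun, card_U2, Fintype.card_fin,
    Fintype.card_fin, mul_assoc] at h2
  have h3 : 4 ^ k = 4 ^ f * c := Nat.eq_of_mul_eq_mul_left (by positivity) h2
  rw [h1, h3]
  ring

lemma om_self (v : U2) : om v v = 0 := by
  show v.1 * v.2 + v.2 * v.1 = 0
  rw [mul_comm v.2]
  exact CharTwo.add_self_eq_zero _

lemma constr (hPRB : S_PRB) (hYXX : S_YXX) {A : Fin k → Fin k → ZMod 2} {x b : Fin k → U2} {v : U2} (hv : v ≠ 0)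
    (hx : ∃ i j, x i ≠ x j) (hxv : ∀ i j, x i + x j = 0 ∨ x i + x j = v)
    (ht : ∃ t : Tt k, ∀ p, ∑ q, Nt A t p q • (x q + x p) + b p = 0) : ∀ p, om v (b p) = 0 := by
  intro p
  have h1 := (hPRB k A x b).2 ht (fun i => (Pi.single p (1 : ZMod 2) : Fin k → ZMod 2) i • v)
    (((hYXX k x hx).2 v hv hxv).2 _)
  rw [Finset.sum_eq_single p] at h1
  · rw [Pi.single_eq_same, one_smul, map_add, map_sum] at h1
    have h2 : ∀ q, om v (A p q • (x q + x p)) = 0 := by
      intro q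
      rw [map_smul]
      rcases hxv q p with h | h
      · rw [h, map_zero, smul_zero]
      · rw [h, om_self, smul_zero]
    rw [Finset.sum_eq_zero (fun q _ => h2 q), add_zero] at h1
    exact h1
  · intro q _ hq
    rw [Pi.single_eq_of_ne hq, zero_smul, map_zero, LinearMap.zero_apply]
  · intro h
    exact absurd (mem_univ _) h

/-- the solutions with all differences in `{0, v}` -/
noncomputable def Bv (T : (Fin f → ZMod 2) →ₗ[ZMod 2] U2 →ₗ[ZMod 2] U2) (φ : Fin k → Fin f → ZMod 2) (v : U2) :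
    Finset ((Fin f → U2) × (Fin k → U2)) :=
  univ.filter fun z => (∀ i j, z.2 i + z.2 j = 0 ∨ z.2 i + z.2 j = v) ∧
    ∀ p, om v (T (φ p) (z.2 p) + ∑ l, φ p l • z.1 l) = 0

lemma add_self' (a : U2) : a + a = 0 := by
  refine Prod.ext ?_ ?_
  · exact CharTwo.add_self_eq_zero _
  · exact CharTwo.add_self_eq_zero _

lemma eq_of_add {a b : U2} (h : a + b = 0) : a = b := by
  have h1 := add_self' b
  calc a = a + (b + b) := by rw [h1, add_zero]
    _ = (a + b) + b := by rw [add_assoc]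
    _ = b := by rw [h, zero_add]

lemma card_Bv (T : (Fin f → ZMod 2) →ₗ[ZMod 2] U2 →ₗ[ZMod 2] U2) (φ : Fin k → Fin f → ZMod 2) {v : U2}
    {χ : Fin f → ZMod 2} (hχ : om v (T χ v) ≠ 0) {R : ℕ} (hR : 1 ≤ R)
    (hφ : R ≤ (univ.filter fun i => φ i = χ).card) : (Bv T φ v).card * 2 ^ R ≤ 4 ^ f * 4 * 2 ^ k := by
  obtain ⟨i₀, -⟩ : (univ.filter fun i => φ i = χ).Nonempty := Finset.card_pos.1 (by omega)
  obtain ⟨g, hg⟩ : ∃ g : ((Fin f → U2) × (Fin k → U2)) → (Fin f → U2) × U2 × ({p : Fin k // φ p ≠ χ} → ZMod 2),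
      ∀ z, g z = (z.1, z.2 i₀, fun p : {p : Fin k // φ p ≠ χ} => if z.2 (p : Fin k) = z.2 i₀ then (0 : ZMod 2) else 1) :=
    ⟨_, fun _ => rfl⟩
  have hinj : Set.InjOn g (Bv T φ v : Set ((Fin f → U2) × (Fin k → U2))) := by
    intro z hz z' hz' hzz
    rw [Finset.mem_coe, Bv, Finset.mem_filter] at hz hz'
    rw [hg, hg, Prod.mk.injEq, Prod.mk.injEq] at hzz
    obtain ⟨e1, e2, e3⟩ := hzz
    refine Prod.ext e1 ?_
    funext p
    by_cases hp : φ p = χ
    · by_contra hne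
      have h1 : z.2 p + z'.2 p = v := by
        have a1 := hz.2.1 p i₀
        have a2 := hz'.2.1 p i₀
        rw [← e2] at a2
        rcases a1 with a1 | a1
        · rcases a2 with a2 | a2
          · exact absurd ((eq_of_add a1).trans (eq_of_add a2).symm) hne
          · rw [eq_of_add a1, add_comm]
            exact a2
        · rcases a2 with a2 | a2
          · rw [eq_of_add a2]
            exact a1
          · exfalso
            apply hne
            exact add_right_cancel (a1.trans a2.symm)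
      have h2 := hz.2.2 p
      have h3 := hz'.2.2 p
      rw [← e1] at h3
      have h4 : om v (T (φ p) (z.2 p) + ∑ l, φ p l • z.1 l) + om v (T (φ p) (z'.2 p) + ∑ l, φ p l • z.1 l) = 0 := by
        rw [h2, h3, add_zero]
      rw [← map_add, add_add_add_comm, add_self', add_zero, ← map_add, h1, hp] at h4
      exact hχ h4
    · have h1 := congrFun e3 ⟨p, hp⟩
      simp only at h1
      rw [← e2] at h1
      by_cases ha : z.2 p = z.2 i₀
      · by_cases hb : z'.2 p = z.2 i₀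
        · rw [ha, hb]
        · rw [if_pos ha, if_neg hb] at h1
          exact absurd h1 (by decide)
      · by_cases hb : z'.2 p = z.2 i₀
        · rw [if_neg ha, if_pos hb] at h1
          exact absurd h1 (by decide)
        · have a1 := hz.2.1 p i₀
          have a2 := hz'.2.1 p i₀
          rw [← e2] at a2
          rcases a1 with a1 | a1
          · exact absurd (eq_of_add a1) ha
          · rcases a2 with a2 | a2
            · exact absurd (eq_of_add a2) hb
            · exact add_right_cancel (a1.trans a2.symm)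
  have h1 := Finset.card_le_card_of_injOn (t := univ) g (fun z _ => by simp) hinj
  rw [Finset.card_univ, Fintype.card_prod, Fintype.card_prod, Fintype.card_fun, Fintype.card_fun, card_U2,
    ZMod.card, Fintype.card_fin] at h1
  have h2 : Fintype.card {p : Fin k // φ p ≠ χ} + (univ.filter fun i => φ i = χ).card = k := by
    rw [Fintype.card_subtype, add_comm, Finset.card_filter_add_card_filter_not, Finset.card_univ, Fintype.card_fin]
  calc (Bv T φ v).card * 2 ^ R ≤ (4 ^ f * (4 * 2 ^ Fintype.card {p : Fin k // φ p ≠ χ})) *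
        2 ^ (univ.filter fun i => φ i = χ).card :=
        Nat.mul_le_mul h1 (Nat.pow_le_pow_right (by norm_num) hφ)
    _ = 4 ^ f * 4 * (2 ^ (Fintype.card {p : Fin k // φ p ≠ χ} + (univ.filter fun i => φ i = χ).card)) := by
        rw [pow_add]
        ring
    _ = 4 ^ f * 4 * 2 ^ k := by rw [h2]

/-- the tables for which `z` is a solution -/
noncomputable def St (T : (Fin f → ZMod 2) →ₗ[ZMod 2] U2 →ₗ[ZMod 2] U2) (φ : Fin k → Fin f → ZMod 2)
    (A : Fin k → Fin k → ZMod 2) (z : (Fin f → U2) × (Fin k → U2)) : Finset (Tt k) :=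
  univ.filter fun t : Tt k => ∀ p, ∑ q, Nt A t p q • (z.2 q + z.2 p) +
    (T (φ p) (z.2 p) + ∑ l, φ p l • z.1 l) = 0

lemma sum_NonC (T : (Fin f → ZMod 2) →ₗ[ZMod 2] U2 →ₗ[ZMod 2] U2)
    (𝓛 : Submodule (ZMod 2) ((Fin f → U2) × (Fin f → U2))) (φ : Fin k → Fin f → ZMod 2) (A : Fin k → Fin k → ZMod 2) :
    ∑ t : Tt k, (NonC T 𝓛 φ A t).ncard =
      ∑ z ∈ univ.filter (fun z : (Fin f → U2) × (Fin k → U2) => Ph φ z ∈ 𝓛 ∧ ∃ i j, z.2 i ≠ z.2 j), (St T φ A z).card := by
  have h1 : ∀ t : Tt k, (NonC T 𝓛 φ A t).ncard =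
      ((univ.filter (fun z : (Fin f → U2) × (Fin k → U2) => Ph φ z ∈ 𝓛 ∧ ∃ i j, z.2 i ≠ z.2 j)).filter
        fun z => t ∈ St T φ A z).card := by
    intro t
    rw [← Set.ncard_coe_finset]
    congr 1
    ext z
    rw [Finset.mem_coe, Finset.mem_filter, Finset.mem_filter, St, Finset.mem_filter]
    show ((z.1, fun l => ∑ p, φ p l • z.2 p) ∈ 𝓛 ∧ (∀ p, ∑ q, Nt A t p q • (z.2 q + z.2 p) + T (φ p) (z.2 p) +
      ∑ l, φ p l • z.1 l = 0) ∧ ∃ i j, z.2 i ≠ z.2 j) ↔ ((z ∈ univ ∧ (z.1, fun l => ∑ p, φ p l • z.2 p) ∈ 𝓛 ∧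
        ∃ i j, z.2 i ≠ z.2 j) ∧ t ∈ univ ∧ ∀ p, ∑ q, Nt A t p q • (z.2 q + z.2 p) +
          (T (φ p) (z.2 p) + ∑ l, φ p l • z.1 l) = 0)
    simp only [add_assoc, Finset.mem_univ, true_and]
    tauto
  rw [Finset.sum_congr rfl fun t _ => h1 t]
  simp only [Finset.card_filter]
  rw [Finset.sum_comm]
  refine Finset.sum_congr rfl fun z _ => ?_
  rw [← Finset.card_filter]
  congr 1
  ext t
  simp

/-- Job FMG. -/
theorem fmg (hPRB : S_PRB) (hYXX : S_YXX) : S_FMG := by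
  intro f T hT d 𝓛 h𝓛 ε hε
  obtain ⟨R0, hR0⟩ := pow_unbounded_of_one_lt (24 * 4 ^ f / ε) (one_lt_two (α := ℝ))
  refine ⟨R0 + 1, by omega, fun k φ A hφ => ?_⟩
  obtain ⟨R, hR⟩ : ∃ R, R = R0 + 1 := ⟨_, rfl⟩
  rw [← hR] at hφ
  have hR1 : 1 ≤ R := by omega
  have hRε : 24 * 4 ^ f / (2 : ℝ) ^ R ≤ ε := by
    rw [div_lt_iff₀ hε] at hR0
    rw [div_le_iff₀ (by positivity), hR, pow_succ]
    nlinarith [pow_pos (two_pos (α := ℝ)) R0]
  have hall : ∀ χ, ∃ p, φ p = χ := by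
    intro χ
    obtain ⟨p, hp⟩ : (univ.filter fun i => φ i = χ).Nonempty := Finset.card_pos.1 (lt_of_lt_of_le hR1 (hφ χ))
    exact ⟨p, (Finset.mem_filter.1 hp).2⟩
  obtain ⟨N, hN⟩ : ∃ N : ℕ, N = Fintype.card (Tt k) := ⟨_, rfl⟩
  obtain ⟨G, hG⟩ : ∃ G : Finset ((Fin f → U2) × (Fin k → U2)),
      G = univ.filter (fun z : (Fin f → U2) × (Fin k → U2) => Ph φ z ∈ 𝓛 ∧ ∃ i j, z.2 i ≠ z.2 j) := ⟨_, rfl⟩
  obtain ⟨V, hV⟩ : ∃ V : Finset U2, V = univ.filter (fun v : U2 => v ≠ 0) := ⟨_, rfl⟩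
  have hVc : V.card = 3 := by
    rw [hV]
    decide
  -- pointwise
  have hpt : ∀ z ∈ G, (St T φ A z).card * 4 ^ k ≤
      N * (8 + ∑ v ∈ V, if z ∈ Bv T φ v then 2 * 2 ^ k else 0) := by
    intro z hz
    rw [hG, Finset.mem_filter] at hz
    have h1 := (hPRB k A z.2 fun p => T (φ p) (z.2 p) + ∑ l, φ p l • z.1 l).1
    rw [← hN] at h1
    by_cases hne : ∃ t : Tt k, t ∈ St T φ A z
    · refine le_trans h1 ?_
      by_cases hc : ∀ v : U2, v ≠ 0 → ∃ i j, z.2 i + z.2 j ≠ 0 ∧ z.2 i + z.2 j ≠ v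
      · have h2 := (hYXX k z.2 hz.2.2).1 hc
        exact Nat.mul_le_mul_left _ (h2.trans (Nat.le_add_right _ _))
      · push Not at hc
        obtain ⟨v, hv, hd⟩ := hc
        have hxv : ∀ i j, z.2 i + z.2 j = 0 ∨ z.2 i + z.2 j = v := by
          intro i j
          by_cases h0 : z.2 i + z.2 j = 0
          · exact Or.inl h0
          · exact Or.inr (hd i j h0)
        obtain ⟨t, ht⟩ := hne
        have h3 := constr hPRB hYXX (A := A) (b := fun p => T (φ p) (z.2 p) + ∑ l, φ p l • z.1 l) hv hz.2.2 hxv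
          ⟨t, (Finset.mem_filter.1 ht).2⟩
        have h4 : z ∈ Bv T φ v := by
          rw [Bv, Finset.mem_filter]
          exact ⟨mem_univ _, hxv, h3⟩
        have h5 := ((hYXX k z.2 hz.2.2).2 v hv hxv).1
        have hvV : v ∈ V := by
          rw [hV, Finset.mem_filter]
          exact ⟨mem_univ _, hv⟩
        have h6 : 2 * 2 ^ k ≤ ∑ v ∈ V, if z ∈ Bv T φ v then 2 * 2 ^ k else 0 := by
          have h7 := Finset.single_le_sum (f := fun v => if z ∈ Bv T φ v then 2 * 2 ^ k else 0) (s := V)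
            (fun v _ => Nat.zero_le _) hvV
          rw [if_pos h4] at h7
          exact h7
        exact Nat.mul_le_mul_left _ (h5.trans (h6.trans (Nat.le_add_left _ _)))
    · have h2 : (St T φ A z).card = 0 := by
        rw [Finset.card_eq_zero, Finset.eq_empty_iff_forall_notMem]
        intro t ht
        exact hne ⟨t, ht⟩
      rw [h2, zero_mul]
      exact Nat.zero_le _
  have hGP : G.card * 4 ^ f ≤ Nat.card 𝓛 * 4 ^ k := by
    rw [← card_pre φ hall 𝓛]
    refine Nat.mul_le_mul_right _ (Finset.card_le_card ?_)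
    intro z hz
    rw [hG, Finset.mem_filter] at hz
    rw [Finset.mem_filter]
    exact ⟨mem_univ _, hz.2.1⟩
  have hsum : (∑ z ∈ G, (St T φ A z).card) * 4 ^ k ≤ N * (8 * G.card + 2 * 2 ^ k * ∑ v ∈ V, (Bv T φ v).card) := by
    rw [Finset.sum_mul]
    refine (Finset.sum_le_sum hpt).trans ?_
    rw [← Finset.mul_sum]
    refine Nat.mul_le_mul_left _ ?_
    rw [Finset.sum_add_distrib, Finset.sum_const, smul_eq_mul, Finset.sum_comm, mul_comm G.card]
    refine Nat.add_le_add_left ?_ _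
    rw [Finset.mul_sum]
    refine Finset.sum_le_sum fun v _ => ?_
    rw [← Finset.sum_filter, Finset.sum_const, smul_eq_mul, mul_comm]
    refine Nat.mul_le_mul_left _ (Finset.card_le_card ?_)
    intro z hz
    exact (Finset.mem_filter.1 hz).2
  have hB : ∀ v ∈ V, ((Bv T φ v).card : ℝ) ≤ 4 ^ f * 4 * 2 ^ k / 2 ^ R := by
    intro v hv
    rw [hV, Finset.mem_filter] at hv
    obtain ⟨χ, hχ⟩ := hT v hv.2
    have h1 := card_Bv T φ hχ hR1 (hφ χ)
    rw [le_div_iff₀ (by positivity)]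
    exact_mod_cast h1
  have hBs : ((∑ v ∈ V, (Bv T φ v).card : ℕ) : ℝ) ≤ 3 * (4 ^ f * 4 * 2 ^ k / 2 ^ R) := by
    push_cast
    refine (Finset.sum_le_sum hB).trans ?_
    rw [Finset.sum_const, hVc, nsmul_eq_mul]
    norm_num
  have hGr : (G.card : ℝ) ≤ 4 ^ k / 2 ^ d := by
    have h1 : G.card * 2 ^ d * 4 ^ f ≤ 4 ^ k * 4 ^ f := by
      calc G.card * 2 ^ d * 4 ^ f = (G.card * 4 ^ f) * 2 ^ d := by ring
        _ ≤ (Nat.card 𝓛 * 4 ^ k) * 2 ^ d := Nat.mul_le_mul_right _ hGP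
        _ = (Nat.card 𝓛 * 2 ^ d) * 4 ^ k := by ring
        _ ≤ 4 ^ f * 4 ^ k := Nat.mul_le_mul_right _ h𝓛
        _ = _ := by ring
    have h2 := Nat.le_of_mul_le_mul_right h1 (by positivity)
    rw [le_div_iff₀ (by positivity)]
    exact_mod_cast h2
  have hS : ((∑ z ∈ G, (St T φ A z).card : ℕ) : ℝ) * 4 ^ k ≤
      (N : ℝ) * (8 * G.card + 2 * 2 ^ k * ((∑ v ∈ V, (Bv T φ v).card : ℕ) : ℝ)) := by
    exact_mod_cast hsum
  have e1 : ∑ t : Tt k, ((NonC T 𝓛 φ A t).ncard : ℝ) = ((∑ z ∈ G, (St T φ A z).card : ℕ) : ℝ) := by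
    rw [hG, ← sum_NonC T 𝓛 φ A]
    push_cast
    rfl
  rw [e1, ← hN]
  have h4k : (0 : ℝ) < 4 ^ k := by positivity
  have h44 : (2 : ℝ) ^ k * 2 ^ k = 4 ^ k := by
    rw [← mul_pow]
    norm_num
  refine le_of_mul_le_mul_right (hS.trans ?_) h4k
  have hN0 : (0 : ℝ) ≤ N := Nat.cast_nonneg _
  calc (N : ℝ) * (8 * G.card + 2 * 2 ^ k * ((∑ v ∈ V, (Bv T φ v).card : ℕ) : ℝ))
      ≤ (N : ℝ) * (8 * (4 ^ k / 2 ^ d) + 2 * 2 ^ k * (3 * (4 ^ f * 4 * 2 ^ k / 2 ^ R))) := by gcongr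
    _ = (N : ℝ) * ((8 / 2 ^ d + 24 * 4 ^ f / 2 ^ R) * 4 ^ k) := by
        rw [← h44]
        field_simp
        ring
    _ ≤ (N : ℝ) * ((8 / 2 ^ d + ε) * 4 ^ k) := by gcongr
    _ = (8 / 2 ^ d + ε) * N * 4 ^ k := by ring

end Pool.Agent.Q176.PQ
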